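import Pool.Agent.H354.BG.Stm

set_option autoImplicit false

/-! Project BG, task MEET: meeting lines is decidable. -/

namespace Pool.Agent.H105.BG.MEET

open Pool.Agent.H354.BG
open Pool.Agent.H482R3.EA (W inv ev PP xx evF cond1 cond2 Syl gOf Sys St Near InD Adm Act)
open Pool.Agent.H482R3.EB (tot wp alt rels AR gR TR Tame Symm alt_length)

section gen

variable {α β γ : Type} [Primcodable α] [Primcodable β] [Primcodable γ]

theorem cp_comp {p : β → Prop} (hp : ComputablePred p) {f : α → β} (hf : Computable f) :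
    ComputablePred (fun x => p (f x)) := by
  obtain ⟨d, h⟩ := hp
  exact ⟨fun x => d (f x), h.comp hf⟩

theorem cp_const (q : Prop) : ComputablePred (fun _ : α => q) := by
  classical
  exact ⟨fun _ => Classical.propDecidable q, Computable.const _⟩

theorem cp_finite [Finite β] (p : β → Prop) : ComputablePred p := by
  classical
  exact ⟨fun x => Classical.propDecidable (p x), (Primrec.dom_finite _).to_comp⟩

theorem cp_of {p : α → Prop} (f : α → Bool) (hf : Computable f)
    (h : ∀ a, p a ↔ f a = true) : ComputablePred p := by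
  rw [ComputablePred.computable_iff]
  exact ⟨f, hf, funext fun a => propext (h a)⟩

theorem cp_and {p q : α → Prop} (hp : ComputablePred p) (hq : ComputablePred q) :
    ComputablePred (fun x => p x ∧ q x) :=
  (Pool.Agent.H482R3.EB.Asm.cp α inferInstance 0).1 p q hp hq

theorem cp_or {p q : α → Prop} (hp : ComputablePred p) (hq : ComputablePred q) :
    ComputablePred (fun x => p x ∨ q x) :=
  (Pool.Agent.H482R3.EB.Asm.cp α inferInstance 0).2.1 p q hp hq

theorem cp_ex {n : ℕ} {p : Fin n → α → Prop} (hp : ∀ i, ComputablePred (p i)) :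
    ComputablePred (fun x => ∃ i, p i x) :=
  (Pool.Agent.H482R3.EB.Asm.cp α inferInstance n).2.2.2 p hp

/-- case distinction for optional syllables -/
theorem cp_cas {P X1 X2 X3 : Type} [Primcodable P] [Primcodable X1] [Primcodable X2]
    [Primcodable X3] (Q : P × Option (X1 ⊕ (X2 ⊕ X3)) → Prop)
    (h0 : ∀ p, ¬ Q (p, none))
    (h1 : ComputablePred (fun q : P × X1 => Q (q.1, some (.inl q.2))))
    (h2 : ComputablePred (fun q : P × X2 => Q (q.1, some (.inr (.inl q.2)))))
    (h3 : ComputablePred (fun q : P × X3 => Q (q.1, some (.inr (.inr q.2))))) :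
    ComputablePred Q := by
  rw [ComputablePred.computable_iff] at h1 h2 h3
  obtain ⟨f1, c1, e1⟩ := h1
  obtain ⟨f2, c2, e2⟩ := h2
  obtain ⟨f3, c3, e3⟩ := h3
  have hmain : Computable (fun p : P × Option (X1 ⊕ (X2 ⊕ X3)) => (Option.casesOn p.2 false
      (fun s => (Sum.casesOn s (fun x => f1 (p.1, x)) (fun y => (Sum.casesOn y
        (fun x => f2 (p.1, x)) (fun x => f3 (p.1, x)) : Bool)) : Bool)) : Bool)) := by
    refine Computable.option_casesOn Computable.snd (Computable.const false) ?_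
    have hp : Computable (fun q : (P × Option (X1 ⊕ (X2 ⊕ X3))) × (X1 ⊕ (X2 ⊕ X3)) => q.1.1) :=
      Computable.fst.comp Computable.fst
    refine Computable.sumCasesOn (f := fun q : (P × Option (X1 ⊕ (X2 ⊕ X3))) × (X1 ⊕ (X2 ⊕ X3)) =>
      q.2) Computable.snd ?_ ?_
    · exact c1.comp ((hp.comp Computable.fst).pair Computable.snd)
    · refine Computable.sumCasesOn (f := fun q : ((P × Option (X1 ⊕ (X2 ⊕ X3))) ×
        (X1 ⊕ (X2 ⊕ X3))) × (X2 ⊕ X3) => q.2) Computable.snd ?_ ?_
      · exact c2.comp ((hp.comp (Computable.fst.comp Computable.fst)).pair Computable.snd)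
      · exact c3.comp ((hp.comp (Computable.fst.comp Computable.fst)).pair Computable.snd)
  refine cp_of _ hmain ?_
  rintro ⟨p, s⟩
  rcases s with _ | (x | (x | x))
  · simp only [Bool.false_eq_true, iff_false]
    exact h0 p
  · exact Iff.of_eq (congrFun e1 (p, x))
  · exact Iff.of_eq (congrFun e2 (p, x))
  · exact Iff.of_eq (congrFun e3 (p, x))

end gen

variable (D : Dat)

/-- bounded search for an exponent -/
theorem bsearch (hbas : S_BASX) (w0 : Fin D.n) (R0 : W (Fin D.n) → W (Fin D.n) → Prop)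
    (hc : ComputablePred (fun q : W (Fin D.n) × W (Fin D.n) => R0 q.1 q.2))
    (hb : ∀ g' g (j : ℤ), R0 g' (g ++ wp w0 j) → |j| ≤ (g.length + g'.length : ℕ)) :
    ComputablePred (fun q : W (Fin D.n) × W (Fin D.n) => ∃ j : ℤ, R0 q.1 (q.2 ++ wp w0 j)) := by
  let σ : Type := W (Fin D.n) × W (Fin D.n)
  let B : σ → ℕ := fun p => ((p.2.length + p.1.length) + 1) ^ 2
  have hBc : Computable B := by
    have e1 : Computable (fun p : σ => p.2.length) := Computable.list_length.comp Computable.snd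
    have e2 : Computable (fun p : σ => p.1.length) := Computable.list_length.comp Computable.fst
    have e3 : Computable (fun p : σ => p.2.length + p.1.length) :=
      Primrec.nat_add.to_comp.comp e1 e2
    have e4 : Computable (fun p : σ => (p.2.length + p.1.length) + 1) := Computable.succ.comp e3
    have e5 : Computable (fun p : σ => ((p.2.length + p.1.length) + 1) *
        ((p.2.length + p.1.length) + 1)) := Primrec.nat_mul.to_comp.comp e4 e4
    refine e5.of_eq fun p => ?_
    simp only [B]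
    ring
  have hE1 : ComputablePred (fun q : σ × ℕ =>
      R0 q.1.1 (q.1.2 ++ wp w0 ((q.2.unpair.1 : ℤ) - (q.2.unpair.2 : ℤ)))) := by
    have f1 : Computable (fun q : σ × ℕ =>
        wp w0 ((q.2.unpair.1 : ℤ) - (q.2.unpair.2 : ℤ))) :=
      (hbas D).2.2.1.comp (f := fun p : Fin D.n × (ℕ × ℕ) => wp p.1 ((p.2.1 : ℤ) - (p.2.2 : ℤ)))
        (g := fun q : σ × ℕ => (w0, q.2.unpair))
        ((Computable.const w0).pair (Computable.unpair.comp Computable.snd))
    have f2 : Computable (fun q : σ × ℕ =>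
        q.1.2 ++ wp w0 ((q.2.unpair.1 : ℤ) - (q.2.unpair.2 : ℤ))) :=
      Computable.list_append.comp (Computable.snd.comp Computable.fst) f1
    exact cp_comp (f := fun q : σ × ℕ =>
      (q.1.1, q.1.2 ++ wp w0 ((q.2.unpair.1 : ℤ) - (q.2.unpair.2 : ℤ)))) hc
      ((Computable.fst.comp Computable.fst).pair f2)
  have hS1 := Pool.Agent.H482R3.EB.Asm.bs σ inferInstance _ B hE1 hBc
  refine hS1.of_eq fun p => ?_
  constructor
  · rintro ⟨n, -, hn⟩
    exact ⟨_, hn⟩
  · rintro ⟨j, hj⟩
    have hbd := hb p.1 p.2 j hj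
    have hjj : ((j.toNat : ℕ) : ℤ) - (((-j).toNat : ℕ) : ℤ) = j := by omega
    refine ⟨Nat.pair j.toNat (-j).toNat, ?_, ?_⟩
    · have g1 := Nat.pair_lt_max_add_one_sq j.toNat (-j).toNat
      have g2 : max j.toNat (-j).toNat ≤ p.2.length + p.1.length := by
        have := abs_le.1 hbd
        push_cast at this
        omega
      refine g1.le.trans ?_
      exact Nat.pow_le_pow_left (by omega) 2
    · dsimp only
      rw [Nat.unpair_pair, hjj]
      exact hj

/-! ### the algebra -/

section alg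

variable (U : Finset (Fin D.r)) (b : Fin D.r)

theorem rhoU_app {v w : Fin D.n} (hok : okL D U b v w) (g' g : W (Fin D.n)) (j : ℤ) :
    rho D U ((gEl D g')⁻¹ * gEl D (g ++ wp w j)) =
      rho D U ((gEl D g')⁻¹ * gEl D g) * gR D.m w ^ j := by
  rw [gEl_append, gEl_wp, ← mul_assoc, map_mul, rho_zpow_in D hok.2.1]

theorem meetA {v w : Fin D.n} (hok : okL D U b v w) (g' g : W (Fin D.n)) :
    (∃ j : ℤ, sameP D U b g' (g ++ wp w j)) ↔ onL D U b w g g' := by
  have hinv : rho D U ((gEl D g)⁻¹ * gEl D g') = (rho D U ((gEl D g')⁻¹ * gEl D g))⁻¹ := by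
    rw [← map_inv]
    congr 1
    group
  constructor
  · rintro ⟨j, hj⟩
    have h1 : rho D U ((gEl D g')⁻¹ * gEl D (g ++ wp w j)) ∈ par D (pZ D U b) :=
      (mem_H0 D U b).mp hj
    rw [rhoU_app D U b hok] at h1
    refine ⟨j, _, Subgroup.inv_mem _ h1, ?_⟩
    rw [hinv]
    group
  · rintro ⟨j, h, hh, he⟩
    refine ⟨j, (mem_H0 D U b).mpr ?_⟩
    rw [rhoU_app D U b hok]
    have h2 : rho D U ((gEl D g')⁻¹ * gEl D g) * gR D.m w ^ j = h⁻¹ := by
      rw [hinv] at he
      rw [← inv_inv (rho D U ((gEl D g')⁻¹ * gEl D g)), he]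
      group
    rw [h2]
    exact Subgroup.inv_mem _ hh

theorem insert_sub {v w : Fin D.n} (hok : okL D U b v w) : insert (D.β w) (pZ D U b) ⊆ U := by
  intro c hc
  rcases Finset.mem_insert.mp hc with rfl | hc
  · exact hok.2.1
  · exact pZ_sub D U b hc

theorem meetB {v w : Fin D.n} (hok : okL D U b v w) (g' g : W (Fin D.n)) :
    (∃ j : ℤ, dcs D U b w g' (g ++ wp w j)) ↔
      (rho D U (gEl D (inv g' ++ g)) = rho D (insert (D.β w) (pZ D U b)) (gEl D (inv g' ++ g)) ∧
        P2 D (pZ D U b) (D.β w) (inv (inv g' ++ g)) w) := by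
  have hx : (gEl D g')⁻¹ * gEl D g = gEl D (inv g' ++ g) := by rw [gEl_append, gEl_inv]
  have hsub := insert_sub D U b hok
  have hsub2 : pZ D U b ⊆ insert (D.β w) (pZ D U b) := Finset.subset_insert _ _
  have hw : gR D.m w ∈ par D (insert (D.β w) (pZ D U b)) :=
    gR_mem_par D (Finset.mem_insert_self _ _)
  constructor
  · rintro ⟨j, i, h₁, h₂, hh₁, hh₂, he⟩
    rw [rhoU_app D U b hok, hx] at he
    have he2 : rho D U (gEl D (inv g' ++ g)) = h₁ * gR D.m w ^ i * h₂ * gR D.m w ^ (-j) := by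
      rw [← he]; group
    have hmem : rho D U (gEl D (inv g' ++ g)) ∈ par D (insert (D.β w) (pZ D U b)) := by
      rw [he2]
      exact Subgroup.mul_mem _ (Subgroup.mul_mem _ (Subgroup.mul_mem _ (par_mono D hsub2 hh₁)
        (Subgroup.zpow_mem _ hw _)) (par_mono D hsub2 hh₂)) (Subgroup.zpow_mem _ hw _)
    have heq : rho D U (gEl D (inv g' ++ g)) =
        rho D (insert (D.β w) (pZ D U b)) (gEl D (inv g' ++ g)) := by
      rw [← rho_of_par D hmem, rho_rho_sub D hsub]
    refine ⟨heq, j, -i, h₂⁻¹, h₁⁻¹, Subgroup.inv_mem _ hh₂, Subgroup.inv_mem _ hh₁, ?_⟩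
    rw [gEl_inv, map_inv, ← heq, he2]
    group
  · rintro ⟨heq, j, i, h₁, h₂, hh₁, hh₂, he⟩
    rw [gEl_inv, map_inv, ← heq] at he
    refine ⟨j, -i, h₂⁻¹, h₁⁻¹, Subgroup.inv_mem _ hh₂, Subgroup.inv_mem _ hh₁, ?_⟩
    rw [rhoU_app D U b hok, hx, ← inv_inv (rho D U (gEl D (inv g' ++ g))), he]
    group

theorem meetC {v w : Fin D.n} (hok : okL D U b v w) (g' g : W (Fin D.n)) :
    (∃ j : ℤ, onL D U b w g' (g ++ wp w j)) ↔
      (rho D U (gEl D (inv g' ++ g)) = rho D (insert (D.β w) (pZ D U b)) (gEl D (inv g' ++ g)) ∧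
        P3 D (pZ D U b) (D.β w) (inv g' ++ g) w) := by
  have hx : (gEl D g')⁻¹ * gEl D g = gEl D (inv g' ++ g) := by rw [gEl_append, gEl_inv]
  have hsub := insert_sub D U b hok
  have hsub2 : pZ D U b ⊆ insert (D.β w) (pZ D U b) := Finset.subset_insert _ _
  have hw : gR D.m w ∈ par D (insert (D.β w) (pZ D U b)) :=
    gR_mem_par D (Finset.mem_insert_self _ _)
  have hwZ := w_notMem_Z D U b hok
  constructor
  · rintro ⟨j, i, h, hh, he⟩
    rw [rhoU_app D U b hok, hx] at he
    have he2 : rho D U (gEl D (inv g' ++ g)) = gR D.m w ^ i * h * gR D.m w ^ (-j) := by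
      rw [← he]; group
    have hmem : rho D U (gEl D (inv g' ++ g)) ∈ par D (insert (D.β w) (pZ D U b)) := by
      rw [he2]
      exact Subgroup.mul_mem _ (Subgroup.mul_mem _ (Subgroup.zpow_mem _ hw _)
        (par_mono D hsub2 hh)) (Subgroup.zpow_mem _ hw _)
    have heq : rho D U (gEl D (inv g' ++ g)) =
        rho D (insert (D.β w) (pZ D U b)) (gEl D (inv g' ++ g)) := by
      rw [← rho_of_par D hmem, rho_rho_sub D hsub]
    have hz : rho D (pZ D U b) (gEl D (inv g' ++ g)) = h := by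
      rw [← rho_rho_sub D (pZ_sub D U b), he2, map_mul, map_mul, rho_zpow_out D hwZ,
        rho_zpow_out D hwZ, one_mul, mul_one, rho_of_par D hh]
    refine ⟨heq, i, -j, ?_⟩
    rw [hz, ← heq, he2]
  · rintro ⟨heq, i, j, he⟩
    refine ⟨-j, i, rho D (pZ D U b) (gEl D (inv g' ++ g)), rho_mem D _ _, ?_⟩
    rw [rhoU_app D U b hok, hx, heq, he]
    group

theorem dcs_of_onL {w : Fin D.n} {g' g : W (Fin D.n)} (h : onL D U b w g' g) :
    dcs D U b w g' g := by
  obtain ⟨i, h, hh, he⟩ := h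
  exact ⟨i, 1, h, Subgroup.one_mem _, hh, by rw [he, one_mul]⟩

end alg

/-! ### computability -/

section comp

variable (U : Finset (Fin D.r)) (b : Fin D.r)

theorem cp_pair (hbas : S_BASX) : Computable (fun q : W (Fin D.n) × W (Fin D.n) => inv q.1 ++ q.2) :=
  Computable.list_append.comp ((hbas D).1.comp Computable.fst) Computable.snd

theorem cp_eq (hbas : S_BASX) (hW : WPU D U) {v w : Fin D.n} (hok : okL D U b v w) :
    ComputablePred (fun q : W (Fin D.n) × W (Fin D.n) =>
      rho D U (gEl D (inv q.1 ++ q.2)) =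
        rho D (insert (D.β w) (pZ D U b)) (gEl D (inv q.1 ++ q.2))) := by
  have h1 : Computable (fun q : W (Fin D.n) × W (Fin D.n) =>
      (inv q.1 ++ q.2) ++ inv (flt D (insert (D.β w) (pZ D U b)) (inv q.1 ++ q.2))) :=
    Computable.list_append.comp (cp_pair D hbas)
      ((hbas D).1.comp (((hbas D).2.1 _).comp (cp_pair D hbas)))
  refine (cp_comp hW h1).of_eq fun q => ?_
  rw [gEl_append, map_mul, gEl_inv, map_inv, mul_inv_eq_one, ← rho_gEl,
    rho_rho_sub' D (insert_sub D U b hok)]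

theorem cpA (hs : S_SAMEC) (hb : b ∉ U) (hW : WPU D U) {v w : Fin D.n} (hok : okL D U b v w) :
    ComputablePred (fun q : W (Fin D.n) × W (Fin D.n) =>
      ∃ j : ℤ, sameP D U b q.1 (q.2 ++ wp w j)) := by
  have h := (hs D U b hb hW).2.2
  refine (cp_comp (f := fun q : W (Fin D.n) × W (Fin D.n) => ((v, w), (q.2, q.1))) h
    ((Computable.const (v, w)).pair (Computable.snd.pair Computable.fst))).of_eq fun q => ?_
  rw [meetA D U b hok]
  exact ⟨fun h => h.2, fun h => ⟨hok, h⟩⟩

theorem cpB (hd : S_DCSC) (hbas : S_BASX) (hnb : S_NBDX) (hb : b ∉ U) (hW : WPU D U)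
    (hR : Rall D U b) {v w w' : Fin D.n} (hok : okL D U b v w) (hok' : okL D U b v w') :
    ComputablePred (fun q : W (Fin D.n) × W (Fin D.n) =>
      ∃ j : ℤ, dcs D U b w' q.1 (q.2 ++ wp w j)) := by
  by_cases hww : w = w'
  · subst hww
    have h2 := (hR (D.β w) hok.2.1 hok.2.2.2.1).2.1
    have h3 : Computable (fun q : W (Fin D.n) × W (Fin D.n) => (inv (inv q.1 ++ q.2), w)) :=
      ((hbas D).1.comp (cp_pair D hbas)).pair (Computable.const w)
    refine (cp_and (cp_eq D U b hbas hW hok) (cp_comp h2 h3)).of_eq fun q => ?_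
    rw [meetB D U b hok]
    exact ⟨fun h => ⟨h.1, h.2.2⟩, fun h => ⟨h.1, rfl, h.2⟩⟩
  · refine bsearch D hbas w (dcs D U b w') ?_ fun g' g j hj => hnb D U b hb v w w' g' g j hok hok'
      hww hj
    refine (cp_comp (f := fun q : W (Fin D.n) × W (Fin D.n) => ((v, w'), q)) (hd D U b hb hW hR)
      ((Computable.const (v, w')).pair Computable.id)).of_eq fun q => ?_
    exact ⟨fun h => h.2, fun h => ⟨hok', h⟩⟩

theorem cpC (hs : S_SAMEC) (hbas : S_BASX) (hnb : S_NBDX) (hb : b ∉ U) (hW : WPU D U)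
    (hR : Rall D U b) {v w w' : Fin D.n} (hok : okL D U b v w) (hok' : okL D U b v w') :
    ComputablePred (fun q : W (Fin D.n) × W (Fin D.n) =>
      ∃ j : ℤ, onL D U b w' q.1 (q.2 ++ wp w j)) := by
  by_cases hww : w = w'
  · subst hww
    have h2 := (hR (D.β w) hok.2.1 hok.2.2.2.1).2.2
    have h3 : Computable (fun q : W (Fin D.n) × W (Fin D.n) => (inv q.1 ++ q.2, w)) :=
      (cp_pair D hbas).pair (Computable.const w)
    refine (cp_and (cp_eq D U b hbas hW hok) (cp_comp h2 h3)).of_eq fun q => ?_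
    rw [meetC D U b hok]
    exact ⟨fun h => ⟨h.1, h.2.2⟩, fun h => ⟨h.1, rfl, h.2⟩⟩
  · refine bsearch D hbas w (onL D U b w') ?_ fun g' g j hj => hnb D U b hb v w w' g' g j hok hok'
      hww (dcs_of_onL D U b hj)
    refine (cp_comp (f := fun q : W (Fin D.n) × W (Fin D.n) => ((v, w'), q))
      (hs D U b hb hW).2.2 ((Computable.const (v, w')).pair Computable.id)).of_eq fun q => ?_
    exact ⟨fun h => h.2, fun h => ⟨hok', h⟩⟩

end comp

theorem t_MEETX (hs : S_SAMEC) (hd : S_DCSC) (hbas : S_BASX) (hnb : S_NBDX) (hn : S_NEARX) :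
    S_MEETX := by
  intro D U b hb hW hR
  -- fixed letters
  have key : ∀ v0 w0 : Fin D.n, ComputablePred
      (fun p : W (Fin D.n) × Option (Sy D) =>
        okO D U b p.2 ∧ okL D U b v0 w0 ∧ MeetX D U b p.1 v0 w0 p.2) := by
    intro v0 w0
    by_cases hok : okL D U b v0 w0
    swap
    · refine (cp_const False).of_eq fun p => ?_
      exact ⟨False.elim, fun h => hok h.2.1⟩
    refine cp_cas (P := W (Fin D.n)) (X1 := W (Fin D.n) × Fin D.n × Bool × ℕ)
      (X2 := W (Fin D.n) × W (Fin D.n)) (X3 := W (Fin D.n) × Fin D.n × Fin D.n × W ℕ) _ ?_ ?_ ?_ ?_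
    · rintro p ⟨-, -, j, hj⟩
      exact hj
    · -- point syllables
      have f1 : Computable (fun q : W (Fin D.n) × (W (Fin D.n) × Fin D.n × Bool × ℕ) =>
          (q.2.1, q.1)) := (Computable.fst.comp Computable.snd).pair Computable.fst
      have f2 : Computable (fun q : W (Fin D.n) × (W (Fin D.n) × Fin D.n × Bool × ℕ) =>
          q.2.2.1) := Computable.fst.comp (Computable.snd.comp Computable.snd)
      have a1 : ComputablePred (fun q : W (Fin D.n) × (W (Fin D.n) × Fin D.n × Bool × ℕ) =>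
          ∃ w' : Fin D.n, okL D U b v0 w' ∧ ∃ j : ℤ, dcs D U b w' q.2.1 (q.1 ++ wp w0 j)) := by
        refine cp_ex fun w' => ?_
        by_cases hok' : okL D U b v0 w'
        · refine (cp_comp (cpB D U b hd hbas hnb hb hW hR hok hok') f1).of_eq fun q => ?_
          exact ⟨fun h => ⟨hok', h⟩, fun h => h.2⟩
        · exact (cp_const False).of_eq fun q => ⟨False.elim, fun h => hok' h.1⟩
      refine (cp_and (cp_comp (cp_finite fun v' : Fin D.n => D.β v' = b) f2)
        (cp_or (cp_comp (cpA D U b hs hb hW hok) f1)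
          (cp_and (cp_comp (cp_finite fun v' : Fin D.n => v0 = v') f2) a1))).of_eq fun q => ?_
      obtain ⟨g, g', v', e, n⟩ := q
      constructor
      · rintro ⟨h1, h2⟩
        refine ⟨h1, hok, ?_⟩
        rcases h2 with ⟨j, hj⟩ | ⟨h3, w', h4, j, hj⟩
        · exact ⟨j, Or.inl hj⟩
        · exact ⟨j, Or.inr ⟨h3, w', h4, hj⟩⟩
      · rintro ⟨h1, -, j, hj⟩
        refine ⟨h1, ?_⟩
        rcases hj with hj | ⟨h3, w', h4, hj⟩
        · exact Or.inl ⟨j, hj⟩
        · exact Or.inr ⟨h3, w', h4, j, hj⟩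
    · -- block lines
      have f1 : Computable (fun q : W (Fin D.n) × (W (Fin D.n) × W (Fin D.n)) =>
          (q.2.1, q.1)) := (Computable.fst.comp Computable.snd).pair Computable.fst
      refine (cp_comp (cpA D U b hs hb hW hok) f1).of_eq fun q => ?_
      obtain ⟨g, g', y⟩ := q
      exact ⟨fun h => ⟨trivial, hok, h⟩, fun h => h.2.2⟩
    · -- cross lines
      have f1 : Computable (fun q : W (Fin D.n) × (W (Fin D.n) × Fin D.n × Fin D.n × W ℕ) =>
          (q.2.1, q.1)) := (Computable.fst.comp Computable.snd).pair Computable.fst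
      have f2 : Computable (fun q : W (Fin D.n) × (W (Fin D.n) × Fin D.n × Fin D.n × W ℕ) =>
          q.2.2.1) := Computable.fst.comp (Computable.snd.comp Computable.snd)
      have f3 : Computable (fun q : W (Fin D.n) × (W (Fin D.n) × Fin D.n × Fin D.n × W ℕ) =>
          q.2.2.2.1) :=
        Computable.fst.comp (Computable.snd.comp (Computable.snd.comp Computable.snd))
      have a1 : ComputablePred
          (fun q : W (Fin D.n) × (W (Fin D.n) × Fin D.n × Fin D.n × W ℕ) =>
          ∃ w' : Fin D.n, q.2.2.2.1 = w' ∧ okL D U b v0 w' ∧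
            ∃ j : ℤ, onL D U b w' q.2.1 (q.1 ++ wp w0 j)) := by
        refine cp_ex fun w' => ?_
        by_cases hok' : okL D U b v0 w'
        · refine (cp_and (cp_comp (cp_finite fun w1 : Fin D.n => w1 = w') f3)
            (cp_comp (cpC D U b hs hbas hnb hb hW hR hok hok') f1)).of_eq fun q => ?_
          exact ⟨fun h => ⟨h.1, hok', h.2⟩, fun h => ⟨h.1, h.2.2⟩⟩
        · exact (cp_const False).of_eq fun q => ⟨False.elim, fun h => hok' h.2.1⟩
      refine (cp_and (cp_comp (cp_finite fun v' : Fin D.n => v0 = v') f2) a1).of_eq fun q => ?_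
      obtain ⟨g, g', v', w', y⟩ := q
      constructor
      · rintro ⟨h1, w1, h2, h3, j, hj⟩
        dsimp only at h1 h2 hj
        subst h1
        subst h2
        exact ⟨h3, hok, j, rfl, hj⟩
      · rintro ⟨h1, -, j, h2, hj⟩
        subst h2
        exact ⟨rfl, w', rfl, h1, j, hj⟩
  -- splitting
  have hfin : ComputablePred (fun p : (W (Fin D.n) × Fin D.n × Fin D.n) × Option (Sy D) =>
      ∃ v0 : Fin D.n, ∃ w0 : Fin D.n, (p.1.2.1 = v0 ∧ p.1.2.2 = w0) ∧
        (okO D U b p.2 ∧ okL D U b v0 w0 ∧ MeetX D U b p.1.1 v0 w0 p.2)) := by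
    refine cp_ex fun v0 => cp_ex fun w0 => cp_and ?_ ?_
    · exact cp_comp (p := fun y : Fin D.n × Fin D.n => y.1 = v0 ∧ y.2 = w0) (cp_finite _)
        (Computable.snd.comp Computable.fst)
    · exact cp_comp (key v0 w0) ((Computable.fst.comp Computable.fst).pair Computable.snd)
  refine hfin.of_eq fun p => ?_
  obtain ⟨⟨g, v, w⟩, s⟩ := p
  constructor
  · rintro ⟨v0, w0, ⟨rfl, rfl⟩, h⟩
    exact h
  · intro h
    exact ⟨v, w, ⟨rfl, rfl⟩, h⟩

end Pool.Agent.H105.BG.MEET
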